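import Mathlib
import Pool.Agent.V11185.ShufI
import Pool.Agent.V11185.ShufJ

/-!
# MP_e74ce2_co: the exponential growth rate of shuffle squares over large alphabets

`Interleave u v w` (in `Pool.Agent.V11185.ShufDef`) says that the word `w` is an interleaving of the words
`u` and `v`; `IsShuffleSquare w` says that `w` is an interleaving of two copies of one word; `squares k n` is
the set of the shuffle squares of length `2 n` over `Fin k`, and `count k n` is its number of elements.
-/

set_option autoImplicit false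

namespace Pool.Agent.Results.MP_e74ce2_co.LargeAlphabets

open Filter Topology Pool.Agent.V11185.Shuf

/-- **Answer to Q1 (yes).** For every `k ≥ 1` the growth rate
`L k = lim_{n → ∞} |S_k(n)| ^ (1 / n)` of the number of shuffle squares of semi-length `n` over an alphabet with
`k` letters exists, and `4 k - 2 - L k → 0` as `k → ∞`. -/
theorem result :
    ∃ L : ℕ → ℝ,
      (∀ k : ℕ, 1 ≤ k →
        Tendsto (fun n : ℕ => (count k n : ℝ) ^ (1 / (n : ℝ))) atTop (𝓝 (L k))) ∧
      Tendsto (fun k : ℕ => 4 * (k : ℝ) - 2 - L k) atTop (𝓝 0) := by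
  have hex : ∀ k : ℕ, ∃ L : ℝ, 1 ≤ k →
      (Tendsto (fun n : ℕ => (count k n : ℝ) ^ (1 / (n : ℝ))) atTop (𝓝 L) ∧
        (∀ n, (count k n : ℝ) ≤ L ^ n) ∧ 1 ≤ L) := by
    intro k
    by_cases hk : 1 ≤ k
    · obtain ⟨L, hL⟩ := exists_lim k hk
      exact ⟨L, fun _ => hL⟩
    · exact ⟨0, fun h => absurd h hk⟩
  choose L hL using hex
  refine ⟨L, fun k hk => (hL k hk).1, ?_⟩
  rw [Metric.tendsto_atTop]
  intro ε hε
  obtain ⟨k₀, hk₀⟩ := lower (ε / 2) (by positivity)
  refine ⟨max k₀ 2, fun k hk => ?_⟩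
  have hk2 : 2 ≤ k := le_trans (le_max_right _ _) hk
  have h := hL k (by omega)
  have h1 := hk₀ k (le_trans (le_max_left _ _) hk) (L k) h.2.1 h.2.2
  have h2 := (lim_le k hk2 (L k) h.1).trans (sqrt_bound k (by omega))
  rw [Real.dist_eq, sub_zero, abs_lt]
  constructor <;> linarith

end Pool.Agent.Results.MP_e74ce2_co.LargeAlphabets
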